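import Mathlib
import Pool.Agent.Helper503_BS.TowerL

/-!
# The rank conjecture over all fields of an infinite extension

Let `E` be an elliptic curve over a number field `K`, and let `F/K` be an infinite (or finite) Galois
extension with group `Γ`. Suppose that `rk E(M) ≤ R` and `ord_{s=1} L(E/M, s) ≤ r` for all finite
Galois subextensions `M/K` of `F/K`. We show that, under a condition on the group `Γ`, there is a
finite Galois extension `F₀/K` in `F` of bounded degree such that over every finite subextension `M`
of `F/K`, normal or not, the rank of `E(M)` and the order of vanishing of `L(E/M, s)` are those over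
`M ∩ F₀`. So the rank conjecture over all (in general infinitely many) fields `M` is equivalent to the
conjecture over the finitely many subfields of `F₀`.

The condition on `Γ`: there is a normal subgroup `S` of finite index in `Γ`, such that for all
`W = Gal(F/F')`, `F'/K` a finite Galois subextension, `S / W` is a solvable group modulo large
layers. If `F/K` is prosolvable, for example the maximal solvable extension of `K`, it is satisfied
with `S = Γ` and without layers, and the degree of `F₀/K` is at most `37 ^ (r + R)`. It is satisfied,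
with an open pro-`p` subgroup `S` and without layers, for all `p`-adic Lie extensions, for example for
`F = K(E'[p^∞])` with any elliptic curve `E'` over `K`. With layers, it is satisfied for `S = Γ` if all
nonabelian chief factors of the finite quotients of `Γ` are products of more than `max(r, R) / 2`
simple groups and lie below the abelian ones.

The hypotheses on the L-functions are the ones of `Pool.Agent.H541R3.ART.ArtinData (Γ ⧸ W) 1`:
functions `L χ` for the irreducible characters `χ` of `Γ ⧸ W`, the twisted L-functions
`L(E/K, χ, s)`, and `Lin H ψ` for the linear characters `ψ` of the subgroups `H`, the L-functions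
`L(E/M, ψ, s)` over the fixed field `M` of `H`, such that `L χ` is meromorphic and not identically zero
near `s = 1`, `Lin H ψ` has no pole at `s = 1`, and `Lin H ψ` is the product of the
`L χ ^ ⟨χ|_H, ψ⟩` near `s = 1`; and the vanishing of `L(E/M, ψ, 1)` is stable under the Galois group:
`L(E/M, ψ, 1) = 0` implies `L(E/M, ψ ^ k, 1) = 0` for `k` prime to the order of `ψ`
(`VanishStable`). For elliptic curves with complex multiplication all this is known: Deuring and
Hecke, and Blasius and Harder for the stability. Artin's conjecture for the `L(E/K, χ, s)` is not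
assumed. `P` is the group `E(F')` with its action of `Γ ⧸ W`; the rank of the group of elements fixed
by `U / W` is the rank of `E(M)` for the fixed field `M` of `U`.

Proof. One uses the Heilbronn function `θ` of the orders of the `L(E/K, χ, s)` at `s = 1`. It is
invariant under the large layers. In the quotient by the intersection of the kernels of the
characters `χ` which occur in `θ`, let `A` be a maximal abelian normal subgroup. The restriction of
`θ` to `A` is a genuine character with `k` different constituents, which separate the elements of `A`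
and are stable under the Galois group. So `|A| ≤ 4 ^ k`, from `n ≤ 4 ^ φ(n)`. The index of `A` is
bounded by the theorems on solvable permutation groups and linear groups (Dixon, Pálfy, Wolf), see
`Pool.Agent.Results.MP_d2121a_nt.AlmostAbelian`. The same applies to the character of `ℂ ⊗ E(F')`.
The bounds for the finite subextensions give one field `F₀` for all of them.
-/

set_option autoImplicit false

open Pool.Agent.H541R3.ART Pool.Agent.Helper503_CP Pool.Agent.Helper503_BS

/-- Let `W i` be a directed family of normal subgroups of finite index of `Γ` (the Galois groups of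
`F` over the finite Galois subextensions of `F/K`), and let `o U` and `ρ U` be the order of vanishing
and the rank over the fixed field of `U`, for the subgroups `U` which contain some `W i`; let
`o (W i) ≤ r` and `ρ (W i) ≤ R` for all `i`, and `r ≤ m`, `R ≤ m`. Let `S` (of finite index, since it
contains `W i`) and `N₁ i` be normal subgroups of `Γ` with `W i ≤ N₁ i ≤ S`, such that
`N₁ i / W i` is built of large layers (`BuiltW m`) and `S / N₁ i` is solvable.

Then there is a normal subgroup `N` of index at most `[Γ : S] * 37 ^ (r + R)` with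
`o U = o (U ⊔ N)` and `ρ U = ρ (U ⊔ N)` for all these `U`; and `o U = ρ U` holds for all these `U` if
and only if it holds for the finitely many `U` which contain `N`. -/
theorem Pool.Agent.Results.MP_ae0bd0_nt.InfiniteExtensions.result
    (Γ : Type) [Group Γ] (ι : Type) [Nonempty ι] (W : ι → Subgroup Γ) [∀ i, (W i).Normal]
    (hfin : ∀ i, (W i).index ≠ 0) (hdir : ∀ i j, ∃ k, W k ≤ W i ∧ W k ≤ W j)
    (o ρ : Subgroup Γ → ℕ) (hmod : ∀ i, Models o ρ (W i))
    (r R m : ℕ) (hr : ∀ i, o (W i) ≤ r) (hR : ∀ i, ρ (W i) ≤ R) (hrm : r ≤ m) (hRm : R ≤ m)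
    (S : Subgroup Γ) [S.Normal] (N₁ : ι → Subgroup Γ) [∀ i, (N₁ i).Normal]
    (hWN : ∀ i, W i ≤ N₁ i) (hNS : ∀ i, N₁ i ≤ S)
    (hlay : ∀ i, BuiltW m ((N₁ i).map (QuotientGroup.mk' (W i))))
    (hsol : ∀ i, Group.IsSolvable (S.map (QuotientGroup.mk' (N₁ i)))) :
    ∃ N : Subgroup Γ, N.Normal ∧ N.index ≠ 0 ∧ N.index ≤ S.index * 37 ^ (r + R) ∧
      (∃ i, W i ≤ N) ∧
      (∀ i, ∀ U : Subgroup Γ, W i ≤ U → o U = o (U ⊔ N) ∧ ρ U = ρ (U ⊔ N)) ∧
      ((∀ i, ∀ U : Subgroup Γ, W i ≤ U → o U = ρ U) ↔ ∀ U : Subgroup Γ, N ≤ U → o U = ρ U) := by
  obtain ⟨N, hN, hidx, ⟨W₀, ⟨i₀, rfl⟩, hle⟩, hgood⟩ := tower (o := o) (ρ := ρ) (Set.range W)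
    (Set.range_nonempty W)
    (by
      rintro _ ⟨i, rfl⟩ _ ⟨j, rfl⟩
      obtain ⟨k, h1, h2⟩ := hdir i j
      exact ⟨W k, ⟨k, rfl⟩, h1, h2⟩) (S.index * 37 ^ (r + R))
    (by
      rintro _ ⟨i, rfl⟩
      exact ⟨inferInstance, hfin i, finite_level_lay (W i) (hfin i) (hmod i) (hr i) (hR i) hrm hRm
        (N₁ i) S (hWN i) (hNS i) (hlay i) (hsol i)⟩)
  have hg : ∀ i, ∀ U : Subgroup Γ, W i ≤ U → o U = o (U ⊔ N) ∧ ρ U = ρ (U ⊔ N) :=
    fun i => (hgood (W i) ⟨i, rfl⟩).2
  have h0 : N.index ≠ 0 := by
    intro h0
    have h1 := Subgroup.index_dvd_of_le hle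
    rw [h0, zero_dvd_iff] at h1
    exact hfin i₀ h1
  refine ⟨N, hN, h0, hidx, ⟨i₀, hle⟩, hg, fun h U hU => h i₀ U (hle.trans hU), fun h i U hU => ?_⟩
  obtain ⟨h1, h2⟩ := hg i U hU
  rw [h1, h2]
  exact h _ le_sup_right
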